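import Mathlib

set_option autoImplicit false
open MeasureTheory Filter Topology

namespace Pool.Agent.TH307.ShockTrain

/-- The integral of a directional derivative of a compactly supported smooth function is zero. -/
theorem integral_dir_zero (φ : ℝ × ℝ → ℝ) (hφ : ContDiff ℝ ((⊤ : ℕ∞) : WithTop ℕ∞) φ)
    (hc : HasCompactSupport φ) (v : ℝ × ℝ) : ∫ z, fderiv ℝ φ z v = 0 := by
  have hd : Differentiable ℝ φ := hφ.differentiable (by simp)
  have hcont : Continuous (fun z => fderiv ℝ φ z v) :=
    (hφ.continuous_fderiv (by simp)).clm_apply continuous_const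
  have hcs : HasCompactSupport (fun z => fderiv ℝ φ z v) := hc.fderiv_apply (𝕜 := ℝ) v
  have hi : Integrable (fun z => fderiv ℝ φ z v) := hcont.integrable_of_hasCompactSupport hcs
  have hi2 : Integrable φ := hφ.continuous.integrable_of_hasCompactSupport hc
  have := integral_mul_fderiv_eq_neg_fderiv_mul_of_integrable (𝕜 := ℝ) (μ := (volume : Measure (ℝ × ℝ)))
    (f := fun _ : ℝ × ℝ => (1 : ℝ)) (g := φ) (v := v) (by simp) (by simpa using hi)
    (by simpa using hi2) (fun _ _ => differentiableAt_const _) (fun x _ => hd x)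
  simpa using this

/-- Functions of `x - t` are annihilated by `∂_t + ∂_x` in the weak sense. -/
theorem transport_zero (h : ℝ → ℝ) (hm : Measurable h) (hb : ∀ y, |h y| ≤ 1)
    (φ : ℝ × ℝ → ℝ) (hφ : ContDiff ℝ ((⊤ : ℕ∞) : WithTop ℕ∞) φ) (hc : HasCompactSupport φ) :
    ∫ z : ℝ × ℝ, h (z.1 - z.2) * fderiv ℝ φ z (1, 1) = 0 := by
  have hd : Differentiable ℝ φ := hφ.differentiable (by simp)
  have hcont : Continuous (fun z => fderiv ℝ φ z ((1, 1) : ℝ × ℝ)) :=
    (hφ.continuous_fderiv (by simp)).clm_apply continuous_const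
  have hcs : HasCompactSupport (fun z => fderiv ℝ φ z ((1, 1) : ℝ × ℝ)) :=
    hc.fderiv_apply (𝕜 := ℝ) _
  have hi : Integrable (fun z => fderiv ℝ φ z ((1, 1) : ℝ × ℝ)) :=
    hcont.integrable_of_hasCompactSupport hcs
  have hΨ : MeasurePreserving (fun z : ℝ × ℝ => (z.2 + z.1, z.2))
      (volume : Measure (ℝ × ℝ)) (volume : Measure (ℝ × ℝ)) := by
    have h1 := measurePreserving_prod_add_swap (G := ℝ) (volume : Measure ℝ) (volume : Measure ℝ)
    have h2 := Measure.measurePreserving_swap (μ := (volume : Measure ℝ)) (ν := (volume : Measure ℝ))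
    exact h2.comp h1
  have hF : AEStronglyMeasurable (fun z : ℝ × ℝ => h (z.1 - z.2) * fderiv ℝ φ z (1, 1))
      (volume : Measure (ℝ × ℝ)) := by
    refine ((hm.comp (measurable_fst.sub measurable_snd)).mul hcont.measurable).aestronglyMeasurable
  have hint : Integrable (fun z : ℝ × ℝ => h (z.1 - z.2) * fderiv ℝ φ z (1, 1)) := by
    refine hi.bdd_mul (c := 1) ?_ ?_
    · exact (hm.comp (measurable_fst.sub measurable_snd)).aestronglyMeasurable
    · exact Eventually.of_forall (fun z => by simpa using hb _)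
  have e1 : ∫ z : ℝ × ℝ, h (z.1 - z.2) * fderiv ℝ φ z (1, 1)
      = ∫ z : ℝ × ℝ, h z.1 * fderiv ℝ φ (z.2 + z.1, z.2) (1, 1) := by
    conv_lhs => rw [← hΨ.map_eq]
    rw [integral_map hΨ.measurable.aemeasurable (by rw [hΨ.map_eq]; exact hF)]
    congr 1
    ext z
    simp
  have hint2 : Integrable (fun z : ℝ × ℝ => h z.1 * fderiv ℝ φ (z.2 + z.1, z.2) (1, 1)) := by
    have := hΨ.integrable_comp_of_integrable hint
    refine this.congr (Eventually.of_forall fun z => ?_)
    simp
  rw [e1]
  have e2 : ∫ z : ℝ × ℝ, h z.1 * fderiv ℝ φ (z.2 + z.1, z.2) (1, 1)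
      = ∫ y : ℝ, ∫ t : ℝ, h y * fderiv ℝ φ (t + y, t) (1, 1) := by
    exact integral_prod (μ := (volume : Measure ℝ)) (ν := (volume : Measure ℝ)) _ hint2
  rw [e2]
  have e3 : ∀ y : ℝ, ∫ t : ℝ, h y * fderiv ℝ φ (t + y, t) (1, 1) = 0 := by
    intro y
    rw [integral_const_mul]
    have hder : ∀ t : ℝ, HasDerivAt (fun t : ℝ => φ (t + y, t)) (fderiv ℝ φ (t + y, t) (1, 1)) t := by
      intro t
      have ha : HasDerivAt (fun t : ℝ => ((t + y, t) : ℝ × ℝ)) (1, 1) t :=
        ((hasDerivAt_id t).add_const y).prodMk (hasDerivAt_id t)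
      have hb : HasFDerivAt φ (fderiv ℝ φ (t + y, t)) ((fun t : ℝ => ((t + y, t) : ℝ × ℝ)) t) :=
        (hd (t + y, t)).hasFDerivAt
      exact HasFDerivAt.comp_hasDerivAt (f := fun t : ℝ => ((t + y, t) : ℝ × ℝ)) t hb ha
    have hemb : IsClosedEmbedding (fun t : ℝ => ((t + y, t) : ℝ × ℝ)) := by
      refine Topology.IsClosedEmbedding.of_continuous_injective_isClosedMap (by fun_prop)
        (fun a b hab => by simpa using (Prod.ext_iff.1 hab).2) ?_
      have hprop : IsProperMap (fun t : ℝ => ((t + y, t) : ℝ × ℝ)) := by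
        rw [isProperMap_iff_isCompact_preimage]
        refine ⟨by fun_prop, fun K hK => ?_⟩
        have hK2 : IsCompact (Prod.snd '' K) := hK.image continuous_snd
        refine hK2.of_isClosed_subset (hK.isClosed.preimage (by fun_prop)) ?_
        intro t ht
        exact ⟨_, ht, rfl⟩
      exact hprop.isClosedMap
    have hc1 : HasCompactSupport (fun t : ℝ => φ (t + y, t)) := hc.comp_isClosedEmbedding hemb
    have hc2 : HasCompactSupport (fun t : ℝ => fderiv ℝ φ (t + y, t) (1, 1)) :=
      hcs.comp_isClosedEmbedding hemb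
    have i1 : Integrable (fun t : ℝ => φ (t + y, t)) :=
      (hφ.continuous.comp (by fun_prop)).integrable_of_hasCompactSupport hc1
    have i2 : Integrable (fun t : ℝ => fderiv ℝ φ (t + y, t) (1, 1)) :=
      (hcont.comp (by fun_prop)).integrable_of_hasCompactSupport hc2
    rw [integral_eq_zero_of_hasDerivAt_of_integrable hder i2 i1, mul_zero]
  simp [e3]

/-- The square wave: `1` on the first half of each period, `0` on the second half. -/
noncomputable def sq (y : ℝ) : ℝ := if Int.fract y < 1 / 2 then 1 else 0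

theorem sq_measurable : Measurable sq := by
  unfold sq
  exact Measurable.ite (measurableSet_lt measurable_fract measurable_const)
    measurable_const measurable_const

theorem sq_cases (y : ℝ) : sq y = 0 ∨ sq y = 1 := by
  unfold sq
  split_ifs <;> simp

theorem sq_half (y : ℝ) : sq (y + 1 / 2) = 1 - sq y := by
  unfold sq
  have h0 := Int.fract_nonneg y
  have h1 := Int.fract_lt_one y
  by_cases h : Int.fract y < 1 / 2
  · have : Int.fract (y + 1 / 2) = Int.fract y + 1 / 2 := by
      rw [Int.fract_eq_iff]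
      refine ⟨by linarith, by linarith, ⌊y⌋, ?_⟩
      have := Int.floor_add_fract y
      linarith
    rw [this, if_neg (by linarith), if_pos h]
    norm_num
  · have : Int.fract (y + 1 / 2) = Int.fract y - 1 / 2 := by
      rw [Int.fract_eq_iff]
      push Not at h
      refine ⟨by linarith, by linarith, ⌊y⌋ + 1, ?_⟩
      have := Int.floor_add_fract y
      push_cast
      linarith
    rw [this, if_pos (by linarith), if_neg h]
    norm_num

/-- The oscillating profile. -/
noncomputable def chi (n : ℕ) (z : ℝ × ℝ) : ℝ := sq (((n : ℝ) + 1) * (z.1 - z.2))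

theorem chi_measurable (n : ℕ) : Measurable (chi n) :=
  sq_measurable.comp (measurable_const.mul (measurable_fst.sub measurable_snd))

theorem chi_cases (n : ℕ) (z : ℝ × ℝ) : chi n z = 0 ∨ chi n z = 1 := sq_cases _

theorem chi_abs (n : ℕ) (z : ℝ × ℝ) : |chi n z| ≤ 1 := by
  rcases chi_cases n z with h | h <;> simp [h]

theorem chi_shift (n : ℕ) (z : ℝ × ℝ) :
    chi n (z + (1 / (2 * ((n : ℝ) + 1)), 0)) = 1 - chi n z := by
  unfold chi
  rw [← sq_half]
  congr 1
  have : ((n : ℝ) + 1) ≠ 0 := by positivity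
  simp only [Prod.fst_add, Prod.snd_add]
  field_simp
  ring

/-- Continuity of translation in `L¹`. -/
theorem translation_tendsto (g : ℝ × ℝ → ℝ) (hg : Integrable g) (h : ℕ → ℝ × ℝ)
    (hh : Tendsto h atTop (𝓝 0)) :
    Tendsto (fun n => ∫ z, |g (z + h n) - g z|) atTop (𝓝 0) := by
  have : Fact ((1 : ENNReal) ≠ ⊤) := ⟨by simp⟩
  have hmem : MemLp g 1 (volume : Measure (ℝ × ℝ)) := memLp_one_iff_integrable.2 hg
  let G : Lp ℝ 1 (volume : Measure (ℝ × ℝ)) := hmem.toLp g
  have hcontG : Continuous (fun c : (ℝ × ℝ)ᵈᵃᵃ => c +ᵥ G) := continuous_id.vadd continuous_const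
  have hmk : Continuous (fun c : ℝ × ℝ => DomAddAct.mk c) := DomAddAct.mkHomeomorph.continuous
  have h1 : Tendsto (fun n => DomAddAct.mk (h n) +ᵥ G) atTop (𝓝 (DomAddAct.mk (0 : ℝ × ℝ) +ᵥ G)) :=
    ((hcontG.comp hmk).tendsto 0).comp hh
  have h0 : DomAddAct.mk (0 : ℝ × ℝ) +ᵥ G = G := by
    exact zero_vadd _ _
  rw [h0] at h1
  have h2 := (tendsto_iff_norm_sub_tendsto_zero.1 h1)
  refine h2.congr (fun n => ?_)
  rw [L1.norm_eq_integral_norm]
  refine integral_congr_ae ?_
  have e1 := Lp.coeFn_sub (DomAddAct.mk (h n) +ᵥ G) G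
  have e2 : (DomAddAct.mk (h n) +ᵥ G : Lp ℝ 1 (volume : Measure (ℝ × ℝ))) =ᵐ[volume] (fun z => g (h n +ᵥ z)) := by
    rw [DomAddAct.mk_vadd_toLp (h n) hmem]
    exact MemLp.coeFn_toLp _
  have e3 := hmem.coeFn_toLp
  filter_upwards [e1, e2, e3] with z w1 w2 w3
  rw [w1, Pi.sub_apply, w2, w3, Real.norm_eq_abs, vadd_eq_add, add_comm]

theorem chi_weak (g : ℝ × ℝ → ℝ) (hg : Integrable g) :
    Tendsto (fun n => ∫ z, chi n z * g z) atTop (𝓝 ((1 / 2) * ∫ z, g z)) := by
  set h : ℕ → ℝ × ℝ := fun n => (1 / (2 * ((n : ℝ) + 1)), 0) with hh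
  have hh0 : Tendsto h atTop (𝓝 0) := by
    have : Tendsto (fun n : ℕ => 1 / (2 * ((n : ℝ) + 1))) atTop (𝓝 0) := by
      have h1 := tendsto_one_div_add_atTop_nhds_zero_nat (𝕜 := ℝ)
      have h2 := h1.const_mul (1 / 2)
      simp only [mul_zero] at h2
      refine h2.congr (fun n => ?_)
      field_simp
    exact this.prodMk_nhds tendsto_const_nhds
  have key := translation_tendsto g hg h hh0
  have hgi : ∀ n, Integrable (fun z => chi n z * g z) := fun n =>
    hg.bdd_mul (c := 1) (chi_measurable n).aestronglyMeasurable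
      (Eventually.of_forall fun z => by simpa using chi_abs n z)
  have hgs : ∀ n, Integrable (fun z => g (z + h n)) := fun n => hg.comp_add_right (h n)
  have hgis : ∀ n, Integrable (fun z => chi n z * g (z + h n)) := fun n =>
    (hgs n).bdd_mul (c := 1) (chi_measurable n).aestronglyMeasurable
      (Eventually.of_forall fun z => by simpa using chi_abs n z)
  have e1 : ∀ n, ∫ z, chi n z * g z = (∫ z, g z) - ∫ z, chi n z * g (z + h n) := by
    intro n
    have t1 : ∫ z, chi n z * g z = ∫ z, chi n (z + h n) * g (z + h n) :=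
      (integral_add_right_eq_self (fun z => chi n z * g z) (h n)).symm
    have t2 : ∫ z, g z = ∫ z, g (z + h n) := (integral_add_right_eq_self g (h n)).symm
    have t3 : ∫ z, chi n (z + h n) * g (z + h n) = ∫ z, (g (z + h n) - chi n z * g (z + h n)) := by
      congr 1
      ext z
      rw [hh]
      simp only []
      rw [chi_shift n z]
      ring
    rw [t1, t3, integral_sub (hgs n) (hgis n), ← t2]
  rw [tendsto_iff_norm_sub_tendsto_zero]
  have e2 : ∀ n, ‖(∫ z, chi n z * g z) - (1 / 2) * ∫ z, g z‖ ≤ ∫ z, |g (z + h n) - g z| := by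
    intro n
    have a1 : (∫ z, chi n z * g z) - (1 / 2) * ∫ z, g z
        = (1 / 2) * ∫ z, (chi n z * g z - chi n z * g (z + h n)) := by
      rw [integral_sub (hgi n) (hgis n)]
      have := e1 n
      linarith
    have a2 : |∫ z, (chi n z * g z - chi n z * g (z + h n))| ≤ ∫ z, |g (z + h n) - g z| := by
      refine (abs_integral_le_integral_abs).trans ?_
      refine integral_mono ((hgi n).sub (hgis n)).abs ((hgs n).sub hg).abs (fun z => ?_)
      have : |chi n z * g z - chi n z * g (z + h n)| = |chi n z| * |g (z + h n) - g z| := by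
        rw [← mul_sub, abs_mul, abs_sub_comm]
      simp only [this]
      calc |chi n z| * |g (z + h n) - g z| ≤ 1 * |g (z + h n) - g z| :=
            mul_le_mul_of_nonneg_right (chi_abs n z) (abs_nonneg _)
        _ = _ := one_mul _
    rw [a1, Real.norm_eq_abs, abs_mul, abs_of_pos (by norm_num : (0 : ℝ) < 1 / 2)]
    have : 0 ≤ |∫ z, (chi n z * g z - chi n z * g (z + h n))| := abs_nonneg _
    linarith
  exact squeeze_zero (fun n => norm_nonneg _) e2 key

end Pool.Agent.TH307.ShockTrain
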